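import Pool.Agent.H46.CH.AS

/-!
# MP_64fb07_lc, board `chs_modules`: row EDn (subtrees are correct)
-/

set_option autoImplicit false

namespace Pool.Agent.H40.CHE

open Classical Pool.Agent.H8.VR Pool.Agent.H69.VR Pool.Agent.H46.CH

theorem pf_EDn : Pool.Agent.H46.CH.T_EDn := by
  intro N Q L T O C _ _ _ _ V t R h
  induction h with
  | refl t => exact id
  | left D o w t t₁ t₂ h ih =>
    intro hR
    cases hR with
    | join _ _ _ _ _ h₁ => exact ih h₁
  | right D o w t t₁ t₂ h ih =>
    intro hR
    cases hR with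
    | join _ _ _ _ _ _ h₂ => exact ih h₂

end Pool.Agent.H40.CHE
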