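import Pool.Agent.H46.CH.AS
import Pool.Agent.H79.CH.NU

/-!
# MP_64fb07_lc, board `chs_modules`: row XBn
-/

set_option autoImplicit false

namespace Pool.Agent.H40.CHE

open Classical Pool.Agent.H8.VR Pool.Agent.H69.VR Pool.Agent.H46.CH
open Pool.Agent.H79.CH (num_pos num_add num_false)

theorem pf_XBn : Pool.Agent.H46.CH.T_XBn := by
  intro N Q L T O C _ _ _ _ V s c U off h hoff
  obtain ⟨A, iA, lam, th, X, E, col, t, hsym, hgen, hEX, hidx, hcmp, hext, hc, hU⟩ := h
  refine ⟨A, iA, lam, th, X, ∅, col, t, hsym, hgen, Set.empty_subset _, hidx, ?_, ?_, ?_, ?_⟩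
  · intro a ha _ z
    by_cases hE : a ∈ E
    · obtain ⟨n, ⟨x, j, h1, h2, h3⟩, h4⟩ := hext a hE z
      have hUa : U (t a) ≠ 0 := by
        rw [hU]
        exact num_pos a ⟨hE, rfl⟩
      obtain ⟨i1, i2⟩ := hidx a ha
      obtain ⟨h5, h6⟩ := hoff (t a) hUa z
      rw [i1, i2] at h5 h6
      obtain ⟨j', hj'⟩ := h5
      refine ⟨x, j + j', h1, ?_, ?_⟩
      · rw [h4, h2, hj']
        ring
      · intro h7
        by_cases hj : j = 0
        · apply h6
          rw [hj']
          have h8 : j' ≠ 0 := by omega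
          exact Nat.mul_ne_zero V.W.pos.ne' h8
        · exact h3 hj
    · exact hcmp a ha hE z
  · intro a ha
    exact absurd ha (Set.notMem_empty a)
  · intro σ
    rw [Pi.add_apply, hc σ, hU σ]
    symm
    apply num_add
    · rintro a ⟨-, h1, -⟩ ⟨h2, -⟩
      exact h1 h2
    · intro a
      constructor
      · rintro ⟨h1, -, h2⟩
        by_cases hE : a ∈ E
        · exact Or.inr ⟨hE, h2⟩
        · exact Or.inl ⟨h1, hE, h2⟩
      · rintro (⟨h1, -, h2⟩ | ⟨h1, h2⟩)
        · exact ⟨h1, Set.notMem_empty a, h2⟩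
        · exact ⟨hEX h1, Set.notMem_empty a, h2⟩
  · intro σ
    rw [num_false]
    · rfl
    · rintro a ⟨ha, -⟩
      exact absurd ha (Set.notMem_empty a)

end Pool.Agent.H40.CHE
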