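import Pool.Agent.H46.CH.AS
import Pool.Agent.H9.CH.XT

/-!
# MP_64fb07_lc, board `chs_modules`: row XTn (run trees of generated structures, with recolouring)
-/

set_option autoImplicit false

namespace Pool.Agent.H40.CHE

open Classical Pool.Agent.H8.VR Pool.Agent.H69.VR Pool.Agent.H46.CH
open Pool.Agent.H9.CH (fset mem_fset kc_cf cf_union cf_point)

section
variable {N Q L T O C A : Type} [Fintype A]

theorem cf_congr (K : Cp C) (lam : A → L) (th : A → A → T) (X Y : Set A) (c c' : A → Q)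
    (h : ∀ a ∈ X, c a = c' a) : cf K lam th X Y c = cf K lam th X Y c' := by
  funext σ
  refine num_congr fun a => ?_
  constructor
  · rintro ⟨h1, h2⟩
    exact ⟨h1, by rw [← h a h1]; exact h2⟩
  · rintro ⟨h1, h2⟩
    exact ⟨h1, by rw [h a h1]; exact h2⟩

theorem cf_rc [Fintype Q] [Fintype L] [Fintype T] [Fintype C] (K : Cp C) (lam : A → L)
    (th : A → A → T) (X Y : Set A) (c c' : A → Q) (f : Q → Q) (h : ∀ a ∈ X, c a = f (c' a))
    (σ : Ix Q L T C) :
    cf K lam th X Y c σ = fs (fun ρ : Ix Q L T C => (f ρ.1, ρ.2) = σ) (cf K lam th X Y c') := by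
  have h1 := num_fib (fun a => a ∈ X) (fun a => (c' a, stt K lam th Y a))
    (fun ρ : Ix Q L T C => (f ρ.1, ρ.2) = σ)
  refine Eq.trans (num_congr fun a => ?_) h1
  constructor
  · rintro ⟨h2, h3⟩
    exact ⟨h2, by rw [← h a h2]; exact h3⟩
  · rintro ⟨h2, h3⟩
    exact ⟨h2, by rw [h a h2]; exact h3⟩

end

theorem good_cf (hDC : T_DC) (N Q L T O C : Type) [Fintype Q] [Fintype L] [Fintype T] [Fintype C]
    (V : Pn N Q L T O C) (hV : V.Sml) (A : Type) [Fintype A] (lam : A → L) (th : A → A → T)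
    (fin : A → L × T → C) (hsym : Sym V.S th)
    (hfin : ∀ a z, V.W.K.cp (kn lam th Set.univ a z) = fin a z) (hq : ∀ a, ∃ q, V.W.af q = fin a)
    (s : N) (X : Set A) (c : A → Q) (hG : V.S.Gen lam th s X c)
    (hc : ∀ a ∈ X, V.W.af (c a) = fin a) (F : Fk Q L O → ℕ) (hF : V.adm lam th fin c X F) :
    V.W.good (⟨s, F, cf V.W.K lam th X X c⟩ : Dt N Q L T O C) := by
  intro κ φ h1 h2
  simp only at h1 h2
  rw [kc_cf] at h1
  have hrg : V.rg κ.1 := by
    by_contra hn
    have h3 := hV A lam th s X c hG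
    have h4 : (fset fun a => a ∈ X ∧ (c a, lam a) = κ).card ≤
        num fun a => a ∈ X ∧ ¬ V.rg (c a) := by
      change _ ≤ (fset fun a => a ∈ X ∧ ¬ V.rg (c a)).card
      refine Finset.card_le_card fun a ha => (mem_fset _ _).2 ?_
      obtain ⟨h5, h6⟩ := (mem_fset _ _).1 ha
      refine ⟨h5, ?_⟩
      rw [show c a = κ.1 from congrArg Prod.fst h6]
      exact hn
    omega
  obtain ⟨Y, hY1, hY2⟩ := hF φ
  choose qq hqq using hq
  obtain ⟨x, hx, y, hy, h3, h4⟩ := hDC N Q L T O C V.W A lam th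
    (fun a => if a ∈ X ∧ (c a, lam a) = κ then κ.1 else if a ∈ Y then φ.2.2.1 else qq a) hsym
    (by
      intro a z
      rw [hfin a z]
      by_cases h5 : a ∈ X ∧ (c a, lam a) = κ
      · simp only [if_pos h5]
        rw [← show c a = κ.1 from congrArg Prod.fst h5.2, hc a h5.1]
      · simp only [if_neg h5]
        by_cases h6 : a ∈ Y
        · simp only [if_pos h6]
          rw [← (hY2 a h6).2.1]
        · simp only [if_neg h6]
          rw [hqq a])
    κ φ.2.2 (fset fun a => a ∈ X ∧ (c a, lam a) = κ) Y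
    (by
      intro x hx
      have h5 := (mem_fset _ _).1 hx
      simp only [if_pos h5]
      rw [show lam x = κ.2 from congrArg Prod.snd h5.2])
    (by
      intro y hy
      have h5 : ¬ (y ∈ X ∧ (c y, lam y) = κ) := fun h6 => (hY2 y hy).1 h6.1
      simp only [if_neg h5, if_pos hy]
      rw [(hY2 y hy).2.2.1])
    (by
      rw [Finset.disjoint_left]
      intro a ha haY
      exact (hY2 a haY).1 ((mem_fset _ _).1 ha).1) h1 (h2.trans hY1)
  have hxX := (mem_fset _ _).1 hx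
  obtain ⟨hy1, hy2, hy3, hy4⟩ := hY2 y hy
  have hcx : c x = κ.1 := congrArg Prod.fst hxX.2
  refine ⟨th x y, ?_, h3, h4⟩
  have h5 := hy4 x hxX.1 (by rw [hcx]; exact hrg)
  have hne : x ≠ y := by
    rintro rfl
    exact hy1 hxX.1
  split_ifs at h5 ⊢ with h6
  · rw [← hcx]
    exact h5
  · have h7 : th y x = V.W.S.sw (th x y) := hsym x y hne
    rw [← hcx, ← h7]
    exact h5

theorem pf_XTn (hDC : T_DC) (hXJ : T_XJ) : Pool.Agent.H46.CH.T_XTn := by
  intro N Q L T O C _ _ _ _ V hV A _ lam th fin hsym hfin hq s X c hG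
  induction hG with
  | pt s a c h =>
    intro hc F hF
    refine ⟨.leaf ⟨s, F, cf V.W.K lam th {a} {a} c⟩ (c a) (lam a), ?_, rfl⟩
    refine Pn.Ok.leaf _ _ _ h ?_ ?_
    · exact fun σ => cf_point V.W.K lam th a c σ
    · exact good_cf hDC N Q L T O C V hV A lam th fin hsym hfin hq s {a} c
        (Sg.Gen.pt s a c h) hc F hF
  | op o X Y c c₁ c₂ h₁ h₂ hd hg ha hX hY ih₁ ih₂ =>
    intro hc F hF
    have hX' : ∀ a ∈ X, c a = V.f o (c₁ a) := hX
    have hY' : ∀ a ∈ Y, c a = V.g o (c₂ a) := hY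
    have hc₁ : ∀ a ∈ X, V.W.af (c₁ a) = fin a := by
      intro a haX
      rw [← hc a (Or.inl haX), hX' a haX, V.ff]
    have hc₂ : ∀ b ∈ Y, V.W.af (c₂ b) = fin b := by
      intro b hbY
      rw [← hc b (Or.inr hbY), hY' b hbY, V.gg]
    have hal : ∀ x ∈ X, ∀ y ∈ Y, V.W.S.al o (c₁ x) (c₂ y) (th x y) := ha
    have hr₁ : ∀ x ∈ X, V.rg (c₁ x) → c x = c₁ x := by
      intro x hx h3
      rw [hX' x hx, V.fr o _ h3]
    have hr₂ : ∀ x ∈ Y, V.rg (c₂ x) → c x = c₂ x := by
      intro x hx h3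
      rw [hY' x hx, V.gr o _ h3]
    obtain ⟨t₁, ht₁, hd₁⟩ := ih₁ hc₁ (fun φ => F φ +
      if φ.1 = o ∧ φ.2.1 = true then kc (cf V.W.K lam th Y Y c₂) φ.2.2 else 0) (by
        intro φ
        obtain ⟨Y₀, hY₀, hY₁⟩ := hF φ
        have hold : ∀ y ∈ Y₀, y ∉ X ∧ fin y = V.W.af φ.2.2.1 ∧ lam y = φ.2.2.2 ∧
            ∀ x ∈ X, V.rg (c₁ x) → if φ.2.1 = true then V.W.S.al φ.1 (c₁ x) φ.2.2.1 (th x y)
              else V.W.S.al φ.1 φ.2.2.1 (c₁ x) (th y x) := by
          intro y hy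
          obtain ⟨h3, h4, h5, h6⟩ := hY₁ y hy
          refine ⟨fun h7 => h3 (Or.inl h7), h4, h5, fun x hx hrx => ?_⟩
          have h8 := hr₁ x hx hrx
          have h9 := h6 x (Or.inl hx) (by rw [h8]; exact hrx)
          rw [h8] at h9
          exact h9
        by_cases hφ : φ.1 = o ∧ φ.2.1 = true
        · refine ⟨Y₀ ∪ (fset fun a => a ∈ Y ∧ (c₂ a, lam a) = φ.2.2), ?_, ?_⟩
          · rw [Finset.card_union_of_disjoint]
            · simp only [if_pos hφ, kc_cf]
              omega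
            · rw [Finset.disjoint_left]
              intro a h3 h4
              exact (hY₁ a h3).1 (Or.inr ((mem_fset _ _).1 h4).1)
          · intro y hy
            rcases Finset.mem_union.1 hy with hy | hy
            · exact hold y hy
            · obtain ⟨h3, h4⟩ := (mem_fset _ _).1 hy
              have h5 : c₂ y = φ.2.2.1 := congrArg Prod.fst h4
              refine ⟨fun h6 => Set.disjoint_left.1 hd h6 h3, ?_, congrArg Prod.snd h4,
                fun x hx _ => ?_⟩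
              · rw [← h5, hc₂ y h3]
              · rw [if_pos hφ.2, hφ.1, ← h5]
                exact hal x hx y h3
        · refine ⟨Y₀, ?_, hold⟩
          simp only [if_neg hφ]
          exact hY₀)
    obtain ⟨t₂, ht₂, hd₂⟩ := ih₂ hc₂ (fun φ => F φ +
      if φ.1 = o ∧ φ.2.1 = false then kc (cf V.W.K lam th X X c₁) φ.2.2 else 0) (by
        intro φ
        obtain ⟨Y₀, hY₀, hY₁⟩ := hF φ
        have hold : ∀ y ∈ Y₀, y ∉ Y ∧ fin y = V.W.af φ.2.2.1 ∧ lam y = φ.2.2.2 ∧
            ∀ x ∈ Y, V.rg (c₂ x) → if φ.2.1 = true then V.W.S.al φ.1 (c₂ x) φ.2.2.1 (th x y)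
              else V.W.S.al φ.1 φ.2.2.1 (c₂ x) (th y x) := by
          intro y hy
          obtain ⟨h3, h4, h5, h6⟩ := hY₁ y hy
          refine ⟨fun h7 => h3 (Or.inr h7), h4, h5, fun x hx hrx => ?_⟩
          have h8 := hr₂ x hx hrx
          have h9 := h6 x (Or.inr hx) (by rw [h8]; exact hrx)
          rw [h8] at h9
          exact h9
        by_cases hφ : φ.1 = o ∧ φ.2.1 = false
        · refine ⟨Y₀ ∪ (fset fun a => a ∈ X ∧ (c₁ a, lam a) = φ.2.2), ?_, ?_⟩
          · rw [Finset.card_union_of_disjoint]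
            · simp only [if_pos hφ, kc_cf]
              omega
            · rw [Finset.disjoint_left]
              intro a h3 h4
              exact (hY₁ a h3).1 (Or.inl ((mem_fset _ _).1 h4).1)
          · intro y hy
            rcases Finset.mem_union.1 hy with hy | hy
            · exact hold y hy
            · obtain ⟨h3, h4⟩ := (mem_fset _ _).1 hy
              have h5 : c₁ y = φ.2.2.1 := congrArg Prod.fst h4
              refine ⟨fun h6 => Set.disjoint_left.1 hd h3 h6, ?_, congrArg Prod.snd h4,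
                fun x hx _ => ?_⟩
              · rw [← h5, hc₁ y h3]
              · rw [if_neg (by rw [hφ.2]; simp), hφ.1, ← h5]
                exact hal y h3 x hx
        · refine ⟨Y₀, ?_, hold⟩
          simp only [if_neg hφ]
          exact hY₀)
    set cc : A → Q := fun a => if a ∈ X then c₁ a else c₂ a with hcc
    have hccX : ∀ a ∈ X, cc a = c₁ a := fun a h => if_pos h
    have hccY : ∀ a ∈ Y, cc a = c₂ a := fun a h => if_neg fun h' => Set.disjoint_left.1 hd h' h
    obtain ⟨w, hw⟩ := hXJ N Q L T O C V.W A lam th cc o X Y hsym hd (by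
      intro x hx y hy
      rw [hccX x hx, hccY y hy]
      exact hal x hx y hy)
    rw [cf_congr V.W.K lam th X X cc c₁ hccX, cf_congr V.W.K lam th Y Y cc c₂ hccY,
      cf_congr V.W.K lam th X (X ∪ Y) cc c₁ hccX,
      cf_congr V.W.K lam th Y (X ∪ Y) cc c₂ hccY] at hw
    refine ⟨.join ⟨V.W.S.u o, F, cf V.W.K lam th (X ∪ Y) (X ∪ Y) c⟩ o w t₁ t₂, ?_, rfl⟩
    refine Pn.Ok.join _ _ _ _ _ ht₁ ht₂ (by rw [hd₁]; rfl) (by rw [hd₂]; rfl) rfl ?_ ?_
      (cf V.W.K lam th X (X ∪ Y) c₁) (cf V.W.K lam th Y (X ∪ Y) c₂) (by rw [hd₁, hd₂]; exact hw)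
      (fun σ => ?_)
      (good_cf hDC N Q L T O C V hV A lam th fin hsym hfin hq _ _ c
        (Sg.Gen.op o X Y c c₁ c₂ h₁ h₂ hd hg ha hX hY) hc F hF)
    · intro φ
      rw [hd₁, hd₂]
    · intro φ
      rw [hd₁, hd₂]
    · change cf V.W.K lam th (X ∪ Y) (X ∪ Y) c σ = _
      rw [cf_union V.W.K lam th X Y (X ∪ Y) c hd σ, cf_rc V.W.K lam th X (X ∪ Y) c c₁ (V.f o) hX' σ,
        cf_rc V.W.K lam th Y (X ∪ Y) c c₂ (V.g o) hY' σ]
      rfl

end Pool.Agent.H40.CHE
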